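import Mathlib

/-! # Descent for `X³ + Y³ = A` by counting decompositions: the definitions

The algorithm: for a nonzero integer `A` let `n` be the cube-free part of `|A|`. If `n` is a base number
(prime to `3`, not `±1` modulo `9`, exactly one prime divisor `2` modulo `3`), count the decompositions
`n = d₀ d₁ d₂` in coprime factors such that `d₁ d₂²`, `d₂ d₀²`, `d₀ d₁²` are cubes modulo the primes
dividing `d₀`, `d₁`, `d₂`; there are `3 ^ (r + 1)` of them, the output is `2 r`. Otherwise there is no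
answer. -/

set_option autoImplicit false

open scoped Classical

namespace Pool.Agent.Q1.CD

/-- The base numbers: cube-free, prime to `3`, not `±1` modulo `9`, exactly one prime divisor is `2`
modulo `3`. -/
def IsBase (N : ℕ) : Prop :=
  N ≠ 0 ∧ ¬ 3 ∣ N ∧ (∀ p : ℕ, p.Prime → ¬ p ^ 3 ∣ N) ∧ N % 9 ≠ 1 ∧ N % 9 ≠ 8 ∧
    ∃ q : ℕ, q.Prime ∧ q % 3 = 2 ∧ q ∣ N ∧ ∀ p : ℕ, p.Prime → p ∣ N → p ≠ q → p % 3 = 1

/-- The cube-free part of `n`. -/
def cubeFree (n : ℕ) : ℕ := ∏ p ∈ n.primeFactors, p ^ (n.factorization p % 3)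

/-- `N = d₀ d₁ d₂` is a decomposition in coprime factors such that `d₁ d₂²`, `d₂ d₀²`, `d₀ d₁²` are cubes
modulo the primes dividing `d₀`, `d₁`, `d₂`. -/
def Decomposition (N : ℕ) (d : ZMod 3 → ℕ) : Prop :=
  ∏ c, d c = N ∧ (∀ c c', c ≠ c' → Nat.Coprime (d c) (d c')) ∧
    ∀ (c : ZMod 3) (p : ℕ), p.Prime → p ∣ d c →
      ∃ x : ℤ, (p : ℤ) ∣ (d (c + 1) : ℤ) * (d (c + 2) : ℤ) ^ 2 - x ^ 3

/-- The number `r` for which there are `3 ^ (r + 1)` decompositions. -/
noncomputable def exponent (N : ℕ) : ℕ := Nat.log 3 {d | Decomposition N d}.ncard - 1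

/-- The algorithm. -/
noncomputable def answer (A : ℤ) : Option ℕ :=
  if IsBase (cubeFree A.natAbs) then some (2 * exponent (cubeFree A.natAbs)) else none

end Pool.Agent.Q1.CD
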