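import Mathlib

/-! Small tools for primitive recursive predicates -/

set_option autoImplicit false

namespace Pool.Agent.Q1.CD

variable {α : Type} [Primcodable α] {f g : α → ℕ} {P Q : α → Prop}

theorem pp_imp (hP : PrimrecPred P) (hQ : PrimrecPred Q) : PrimrecPred fun a => P a → Q a :=
  (hP.not.or hQ).of_eq fun a => by
    by_cases h : P a <;> simp [h]

theorem pp_dvd (hf : Primrec f) (hg : Primrec g) : PrimrecPred fun a => f a ∣ g a :=
  (Primrec.eq.comp (Primrec.nat_mod.comp hg hf) (Primrec.const 0)).of_eq fun a => by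
    rw [Nat.dvd_iff_mod_eq_zero]

theorem pp_eq (hf : Primrec f) (hg : Primrec g) : PrimrecPred fun a => f a = g a :=
  Primrec.eq.comp hf hg

theorem pp_ne (hf : Primrec f) (hg : Primrec g) : PrimrecPred fun a => f a ≠ g a :=
  (Primrec.eq.comp hf hg).not

theorem pp_le (hf : Primrec f) (hg : Primrec g) : PrimrecPred fun a => f a ≤ g a :=
  Primrec.nat_le.comp hf hg

theorem pp_ex (hf : Primrec f) {R : ℕ × α → Prop} (hR : PrimrecPred R) :
    PrimrecPred fun a => ∃ x < f a, R (x, a) := by
  have hR' : PrimrecRel fun (x : ℕ) (a : α) => R (x, a) := hR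
  exact ((PrimrecRel.exists_mem_list hR').comp (Primrec.list_range.comp hf) Primrec.id).of_eq
    fun a => by simp

theorem pp_all (hf : Primrec f) {R : ℕ × α → Prop} (hR : PrimrecPred R) :
    PrimrecPred fun a => ∀ x < f a, R (x, a) := by
  have hR' : PrimrecRel fun (x : ℕ) (a : α) => R (x, a) := hR
  exact ((PrimrecRel.forall_mem_list hR').comp (Primrec.list_range.comp hf) Primrec.id).of_eq
    fun a => by simp

theorem pp_prime (hf : Primrec f) : PrimrecPred fun a => (f a).Prime := by
  have h1 : PrimrecPred fun a => 2 ≤ f a ∧ ∀ m < f a, 2 ≤ m → ¬ m ∣ f a := by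
    refine (pp_le (Primrec.const 2) hf).and ?_
    exact pp_all hf (R := fun q => 2 ≤ q.1 → ¬ q.1 ∣ f q.2)
      (pp_imp (pp_le (Primrec.const 2) Primrec.fst) (pp_dvd Primrec.fst (hf.comp Primrec.snd)).not)
  exact h1.of_eq fun a => by
    rw [Nat.prime_def_lt']
    exact and_congr_right fun _ => ⟨fun h m h2 hm => h m hm h2, fun h m hm h2 => h m h2 hm⟩

theorem pr_cube (hf : Primrec f) : Primrec fun a => f a ^ 3 :=
  (Primrec.nat_mul.comp (Primrec.nat_mul.comp hf hf) hf).of_eq fun a => by ring

theorem pr_sq (hf : Primrec f) : Primrec fun a => f a ^ 2 :=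
  (Primrec.nat_mul.comp hf hf).of_eq fun a => by ring

/-- the length of a filtered range -/
theorem pr_count (hf : Primrec f) {R : ℕ × α → Prop} (hR : PrimrecPred R) (c : α → ℕ)
    (hc : ∀ a, c a = {x | x < f a ∧ R (x, a)}.ncard) : Primrec c := by
  classical
  have hR' : PrimrecRel fun (x : ℕ) (a : α) => R (x, a) := hR
  have h1 : Primrec₂ fun (L : List ℕ) (a : α) => L.filter fun x => decide (R (x, a)) :=
    PrimrecRel.listFilter hR'
  have h2 : Primrec fun a => ((List.range (f a)).filter fun x => decide (R (x, a))).length :=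
    Primrec.list_length.comp (h1.comp (Primrec.list_range.comp hf) Primrec.id)
  refine h2.of_eq fun a => ?_
  rw [hc]
  have h3 : {x | x < f a ∧ R (x, a)} = (((List.range (f a)).filter fun x => decide (R (x, a))).toFinset : Set ℕ) := by
    ext x
    simp
  rw [h3, Set.ncard_coe_finset, List.toFinset_card_of_nodup]
  exact List.Nodup.filter _ List.nodup_range

/-- the integral part of the logarithm -/
theorem pr_log (hf : Primrec f) : Primrec fun a => Nat.log 3 (f a) := by
  have h0 : Primrec₂ fun (m n : ℕ) => m ^ n := by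
    have h1 : Primrec₂ fun (m n : ℕ) => Nat.rec (motive := fun _ => ℕ) 1 (fun _ y => y * m) n :=
      Primrec.nat_rec (f := fun _ : ℕ => 1) (g := fun (m : ℕ) (q : ℕ × ℕ) => q.2 * m) (Primrec.const 1)
        (Primrec.nat_mul.comp (Primrec.snd.comp Primrec.snd) Primrec.fst)
    refine h1.of_eq fun m n => ?_
    induction n with
    | zero => rfl
    | succ n ih =>
      rw [pow_succ, ← ih]
  have h1 : Primrec fun a => Nat.findGreatest (fun k => 3 ^ k ≤ f a) (f a) :=
    Primrec.nat_findGreatest hf (p := fun a k => 3 ^ k ≤ f a)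
      (Primrec.nat_le.comp (h0.comp (Primrec.const 3) Primrec.snd) (hf.comp Primrec.fst))
  refine h1.of_eq fun a => ?_
  by_cases h0 : f a = 0
  · rw [h0]
    simp
  · rw [Nat.findGreatest_eq_iff]
    refine ⟨?_, fun _ => Nat.pow_log_le_self 3 h0, fun k hk _ => ?_⟩
    · exact (Nat.log_lt_self 3 h0).le
    · exact not_le.2 (Nat.lt_pow_of_log_lt (by norm_num) hk)

theorem pr_natAbs : Primrec Int.natAbs := by
  have h1 : Primrec fun z : ℤ => (Encodable.encode z + 1) / 2 :=
    Primrec.nat_div.comp (Primrec.succ.comp Primrec.encode) (Primrec.const 2)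
  refine h1.of_eq fun z => ?_
  cases z with
  | ofNat n =>
    have : Encodable.encode (Int.ofNat n) = 2 * n := rfl
    rw [this]
    show (2 * n + 1) / 2 = n
    omega
  | negSucc n =>
    have : Encodable.encode (Int.negSucc n) = 2 * n + 1 := rfl
    rw [this]
    show (2 * n + 1 + 1) / 2 = n + 1
    omega

end Pool.Agent.Q1.CD
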