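import Pool.Agent.Q283.ND.Fn
import Pool.Agent.Q283.Q3.Fld
import Pool.Agent.Q1.CD.Defs
import Pool.Agent.Q1.CD.Prr

/-! The algorithm is primitive recursive -/

set_option autoImplicit false

open scoped Classical

namespace Pool.Agent.Q1.CD

open Primrec (fst snd const)

/-- the cube-free part by search -/
noncomputable def core (n : ℕ) : ℕ := n / Nat.findGreatest (fun b => b ^ 3 ∣ n) n ^ 3

theorem core_eq {n : ℕ} (hn : n ≠ 0) : core n = cubeFree n := by
  obtain ⟨b, hb⟩ : ∃ b, b = Nat.findGreatest (fun b => b ^ 3 ∣ n) n := ⟨_, rfl⟩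
  have hbn : b ^ 3 ∣ n := by
    rw [hb]
    exact Nat.findGreatest_spec (P := fun b => b ^ 3 ∣ n) (m := 1) (Nat.one_le_iff_ne_zero.2 hn)
      (by simp)
  have e : core n * b ^ 3 = n := by
    unfold core
    rw [← hb]
    exact Nat.div_mul_cancel hbn
  have hfree : ∀ p : ℕ, p.Prime → ¬ p ^ 3 ∣ core n := by
    intro p hp h
    have h1 : (p * b) ^ 3 ∣ n := by
      rw [mul_pow, ← e]
      exact mul_dvd_mul_right h _
    have h2 : p * b ≤ n := (Nat.le_self_pow (by norm_num) _).trans (Nat.le_of_dvd (Nat.pos_of_ne_zero hn) h1)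
    have h3 := Nat.le_findGreatest (P := fun b => b ^ 3 ∣ n) h2 h1
    rw [← hb] at h3
    have hb0 : 0 < b := Nat.pos_of_ne_zero (by
      rintro rfl
      rw [zero_pow (by norm_num), mul_zero] at e
      exact hn e.symm)
    have h4 := hp.two_le
    nlinarith
  have h2 := Q283.ND.cf_mul hn
  exact Q283.Q3N.cf_unique (e.trans h2) (by rw [e]; exact hn) hfree (Q283.ND.cf_free n)

theorem pr_core : Primrec core := by
  have h1 : Primrec fun n : ℕ => Nat.findGreatest (fun b => b ^ 3 ∣ n) n :=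
    Primrec.nat_findGreatest Primrec.id (p := fun n b => b ^ 3 ∣ n)
      (pp_dvd (α := ℕ × ℕ) (pr_cube snd) fst)
  exact Primrec.nat_div.comp Primrec.id (pr_cube h1)

theorem base_bd (N : ℕ) : IsBase N ↔ N ≠ 0 ∧ ¬ 3 ∣ N ∧ (∀ p < N + 1, p.Prime → ¬ p ^ 3 ∣ N) ∧
    N % 9 ≠ 1 ∧ N % 9 ≠ 8 ∧ ∃ q < N + 1, q.Prime ∧ q % 3 = 2 ∧ q ∣ N ∧
      ∀ p < N + 1, p.Prime → p ∣ N → p ≠ q → p % 3 = 1 := by
  unfold IsBase
  constructor
  · rintro ⟨h0, h3, hc, h1, h8, q, hq, hq2, hqN, hqu⟩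
    have hle : ∀ {p : ℕ}, p ∣ N → p < N + 1 := fun h =>
      Nat.lt_succ_of_le (Nat.le_of_dvd (Nat.pos_of_ne_zero h0) h)
    exact ⟨h0, h3, fun p _ => hc p, h1, h8, q, hle hqN, hq, hq2, hqN, fun p _ => hqu p⟩
  · rintro ⟨h0, h3, hc, h1, h8, q, -, hq, hq2, hqN, hqu⟩
    have hle : ∀ {p : ℕ}, p ∣ N → p < N + 1 := fun h =>
      Nat.lt_succ_of_le (Nat.le_of_dvd (Nat.pos_of_ne_zero h0) h)
    exact ⟨h0, h3, fun p hp h => hc p (hle ((dvd_pow_self p (by norm_num)).trans h)) hp h, h1, h8, q,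
      hq, hq2, hqN, fun p hp h => hqu p (hle h) hp h⟩

theorem pp_base : PrimrecPred IsBase := by
  have h : PrimrecPred fun N : ℕ => N ≠ 0 ∧ ¬ 3 ∣ N ∧ (∀ p < N + 1, p.Prime → ¬ p ^ 3 ∣ N) ∧
    N % 9 ≠ 1 ∧ N % 9 ≠ 8 ∧ ∃ q < N + 1, q.Prime ∧ q % 3 = 2 ∧ q ∣ N ∧
      ∀ p < N + 1, p.Prime → p ∣ N → p ≠ q → p % 3 = 1 := by
    have hid : Primrec fun N : ℕ => N := Primrec.id
    have hs : Primrec fun N : ℕ => N + 1 := Primrec.succ
    have h9 : Primrec fun N : ℕ => N % 9 := Primrec.nat_mod.comp hid (const 9)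
    refine (pp_ne hid (const 0)).and ((pp_dvd (const 3) hid).not.and (PrimrecPred.and ?_
      ((pp_ne h9 (const 1)).and ((pp_ne h9 (const 8)).and ?_))))
    · exact pp_all hs (R := fun q : ℕ × ℕ => q.1.Prime → ¬ q.1 ^ 3 ∣ q.2)
        (pp_imp (pp_prime fst) (pp_dvd (pr_cube fst) snd).not)
    · refine pp_ex hs (R := fun q : ℕ × ℕ => q.1.Prime ∧ q.1 % 3 = 2 ∧ q.1 ∣ q.2 ∧
        ∀ p < q.2 + 1, p.Prime → p ∣ q.2 → p ≠ q.1 → p % 3 = 1) ?_
      refine (pp_prime fst).and ((pp_eq (Primrec.nat_mod.comp fst (const 3)) (const 2)).and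
        ((pp_dvd fst snd).and ?_))
      exact pp_all (Primrec.succ.comp snd) (R := fun r : ℕ × (ℕ × ℕ) => r.1.Prime → r.1 ∣ r.2.2 →
          r.1 ≠ r.2.1 → r.1 % 3 = 1)
        (pp_imp (pp_prime fst) (pp_imp (pp_dvd fst (snd.comp snd)) (pp_imp
          (pp_ne fst (fst.comp snd)) (pp_eq (Primrec.nat_mod.comp fst (const 3)) (const 1)))))
  exact h.of_eq fun N => (base_bd N).symm

/-- bounded coprimality -/
def Cop (N a b : ℕ) : Prop := ∀ m < N + 1, 2 ≤ m → m ∣ a → ¬ m ∣ b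

/-- bounded cubic residues -/
def Cub (N a b c : ℕ) : Prop := ∀ p < N + 1, p.Prime → p ∣ a → ∃ x < p, (b * c ^ 2) % p = x ^ 3 % p

/-- the codes of the decompositions -/
def DP (N a b c : ℕ) : Prop :=
  a * b * c = N ∧ (Cop N a b ∧ Cop N a c ∧ Cop N b c) ∧ Cub N a b c ∧ Cub N b c a ∧ Cub N c a b

theorem cop_iff {N a b : ℕ} (hN : N ≠ 0) (ha : a ∣ N) : Cop N a b ↔ Nat.Coprime a b := by
  unfold Cop
  constructor
  · intro h
    refine Nat.coprime_of_dvd fun p hp h1 h2 => ?_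
    exact h p (Nat.lt_succ_of_le (Nat.le_of_dvd (Nat.pos_of_ne_zero hN) (h1.trans ha))) hp.two_le h1 h2
  · intro h m _ hm h1 h2
    have := Nat.eq_one_of_dvd_coprimes h h1 h2
    omega

theorem cub_iff {N a b c : ℕ} (hN : N ≠ 0) (ha : a ∣ N) : Cub N a b c ↔
    ∀ p : ℕ, p.Prime → p ∣ a → ∃ x : ℤ, (p : ℤ) ∣ (b : ℤ) * (c : ℤ) ^ 2 - x ^ 3 := by
  unfold Cub
  constructor
  · intro h p hp hpa
    obtain ⟨x, -, hx⟩ := h p (Nat.lt_succ_of_le (Nat.le_of_dvd (Nat.pos_of_ne_zero hN) (hpa.trans ha))) hp hpa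
    refine ⟨x, ?_⟩
    have h1 : x ^ 3 ≡ b * c ^ 2 [MOD p] := hx.symm
    have h2 := Nat.modEq_iff_dvd.1 h1
    push_cast at h2
    exact h2
  · intro h p _ hp hpa
    obtain ⟨x, hx⟩ := h p hp hpa
    have hp0 : (p : ℤ) ≠ 0 := by exact_mod_cast hp.ne_zero
    have hx0 : ((x % p).toNat : ℤ) = x % p := Int.toNat_of_nonneg (Int.emod_nonneg _ hp0)
    refine ⟨(x % p).toNat, ?_, ?_⟩
    · have h1 := Int.emod_lt_of_pos x (by exact_mod_cast hp.pos : (0 : ℤ) < p)
      omega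
    · have h2 : (x % p).toNat ^ 3 ≡ b * c ^ 2 [MOD p] := by
        rw [Nat.modEq_iff_dvd]
        push_cast
        rw [hx0]
        have h3 : (p : ℤ) ∣ x ^ 3 - (x % p) ^ 3 := by
          have h4 : (p : ℤ) ∣ x - x % p := Int.dvd_self_sub_emod
          exact h4.trans (sub_dvd_pow_sub_pow _ _ 3)
        have h5 : (b : ℤ) * (c : ℤ) ^ 2 - (x % p) ^ 3 =
            ((b : ℤ) * (c : ℤ) ^ 2 - x ^ 3) + (x ^ 3 - (x % p) ^ 3) := by ring
        rw [h5]
        exact dvd_add hx h3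
      exact h2.symm

theorem dec_iff {N : ℕ} (hN : N ≠ 0) (d : ZMod 3 → ℕ) :
    Decomposition N d ↔ DP N (d 0) (d 1) (d 2) := by
  have e1 : ∏ c, d c = d 0 * d 1 * d 2 := Fin.prod_univ_three (fun c : Fin 3 => d c)
  unfold Decomposition DP
  rw [e1]
  refine and_congr_right fun h => ?_
  have d0 : d 0 ∣ N := by rw [← h, mul_assoc]; exact dvd_mul_right _ _
  have d1 : d 1 ∣ N := by rw [← h, mul_comm (d 0), mul_assoc]; exact dvd_mul_right _ _
  have d2 : d 2 ∣ N := by rw [← h]; exact dvd_mul_left _ _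
  refine and_congr ?_ ?_
  · rw [cop_iff hN d0, cop_iff hN d0, cop_iff hN d1]
    constructor
    · intro h
      exact ⟨h 0 1 (by decide), h 0 2 (by decide), h 1 2 (by decide)⟩
    · rintro ⟨h1, h2, h3⟩ c c' hcc
      have key : ∀ c c' : ZMod 3, c ≠ c' → (c = 0 ∧ c' = 1) ∨ (c = 0 ∧ c' = 2) ∨ (c = 1 ∧ c' = 2) ∨
          (c = 1 ∧ c' = 0) ∨ (c = 2 ∧ c' = 0) ∨ (c = 2 ∧ c' = 1) := by decide
      rcases key c c' hcc with ⟨rfl, rfl⟩ | ⟨rfl, rfl⟩ | ⟨rfl, rfl⟩ | ⟨rfl, rfl⟩ | ⟨rfl, rfl⟩ | ⟨rfl, rfl⟩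
      · exact h1
      · exact h2
      · exact h3
      · exact h1.symm
      · exact h2.symm
      · exact h3.symm
  · rw [cub_iff hN d0, cub_iff hN d1, cub_iff hN d2]
    constructor
    · intro h
      exact ⟨h 0, h 1, h 2⟩
    · rintro ⟨h1, h2, h3⟩ c
      have key : ∀ c : ZMod 3, c = 0 ∨ c = 1 ∨ c = 2 := by decide
      rcases key c with rfl | rfl | rfl
      · exact h1
      · exact h2
      · exact h3

/-- the code -/
def code (d : ZMod 3 → ℕ) : ℕ := Nat.pair (d 0) (Nat.pair (d 1) (d 2))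

theorem code_inj : Function.Injective code := by
  intro d d' h
  unfold code at h
  rw [Nat.pair_eq_pair, Nat.pair_eq_pair] at h
  obtain ⟨h0, h1, h2⟩ := h
  funext c
  have key : ∀ c : ZMod 3, c = 0 ∨ c = 1 ∨ c = 2 := by decide
  rcases key c with rfl | rfl | rfl
  · exact h0
  · exact h1
  · exact h2

/-- the number of the decompositions -/
noncomputable def number (N : ℕ) : ℕ :=
  {k | k < ((N + 1) ^ 2 + 1) ^ 2 ∧
    DP N k.unpair.1 k.unpair.2.unpair.1 k.unpair.2.unpair.2}.ncard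

theorem number_eq {N : ℕ} (hN : N ≠ 0) : number N = {d | Decomposition N d}.ncard := by
  unfold number
  rw [← Set.ncard_image_of_injective {d | Decomposition N d} code_inj]
  congr 1
  ext k
  constructor
  · rintro ⟨-, h⟩
    refine ⟨fun c => if c = 0 then k.unpair.1 else if c = 1 then k.unpair.2.unpair.1 else
      k.unpair.2.unpair.2, ?_, ?_⟩
    · show Decomposition N _
      rw [dec_iff hN]
      exact h
    · show Nat.pair k.unpair.1 (Nat.pair k.unpair.2.unpair.1 k.unpair.2.unpair.2) = k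
      rw [Nat.pair_unpair, Nat.pair_unpair]
  · rintro ⟨d, hd, rfl⟩
    have hd : Decomposition N d := hd
    have h := (dec_iff hN d).1 hd
    have e := h.1
    have hle : ∀ {x : ℕ}, x ∣ N → x ≤ N := fun h => Nat.le_of_dvd (Nat.pos_of_ne_zero hN) h
    have d0 : d 0 ≤ N := hle (by rw [← e, mul_assoc]; exact dvd_mul_right _ _)
    have d1 : d 1 ≤ N := hle (by rw [← e, mul_comm (d 0), mul_assoc]; exact dvd_mul_right _ _)
    have d2 : d 2 ≤ N := hle (by rw [← e]; exact dvd_mul_left _ _)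
    refine ⟨?_, ?_⟩
    · unfold code
      have h1 : Nat.pair (d 1) (d 2) < (N + 1) ^ 2 := by
        refine (Nat.pair_lt_max_add_one_sq _ _).trans_le ?_
        exact Nat.pow_le_pow_left (by omega) 2
      refine (Nat.pair_lt_max_add_one_sq _ _).trans_le ?_
      refine Nat.pow_le_pow_left ?_ 2
      have h2 : N ≤ (N + 1) ^ 2 := by nlinarith
      omega
    · unfold code
      rw [Nat.unpair_pair, Nat.unpair_pair]
      exact h

theorem pp_cop {α : Type} [Primcodable α] {f g h : α → ℕ} (hf : Primrec f) (hg : Primrec g)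
    (hh : Primrec h) : PrimrecPred fun a => Cop (f a) (g a) (h a) :=
  pp_all (Primrec.succ.comp hf) (R := fun q : ℕ × α => 2 ≤ q.1 → q.1 ∣ g q.2 → ¬ q.1 ∣ h q.2)
    (pp_imp (pp_le (const 2) fst) (pp_imp (pp_dvd fst (hg.comp snd)) (pp_dvd fst (hh.comp snd)).not))

theorem pp_cub {α : Type} [Primcodable α] {f g h k : α → ℕ} (hf : Primrec f) (hg : Primrec g)
    (hh : Primrec h) (hk : Primrec k) : PrimrecPred fun a => Cub (f a) (g a) (h a) (k a) := by
  refine pp_all (Primrec.succ.comp hf) (R := fun q : ℕ × α => q.1.Prime → q.1 ∣ g q.2 →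
    ∃ x < q.1, (h q.2 * k q.2 ^ 2) % q.1 = x ^ 3 % q.1) ?_
  refine pp_imp (pp_prime fst) (pp_imp (pp_dvd fst (hg.comp snd)) ?_)
  exact pp_ex fst (R := fun r : ℕ × (ℕ × α) => (h r.2.2 * k r.2.2 ^ 2) % r.2.1 = r.1 ^ 3 % r.2.1)
    (pp_eq (Primrec.nat_mod.comp (Primrec.nat_mul.comp (hh.comp (snd.comp snd))
      (pr_sq (hk.comp (snd.comp snd)))) (fst.comp snd))
      (Primrec.nat_mod.comp (pr_cube fst) (fst.comp snd)))

theorem pr_number : Primrec number := by
  have hk : Primrec fun q : ℕ × ℕ => q.1 := fst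
  have ha : Primrec fun q : ℕ × ℕ => q.1.unpair.1 := fst.comp (Primrec.unpair.comp hk)
  have hbc : Primrec fun q : ℕ × ℕ => q.1.unpair.2.unpair :=
    Primrec.unpair.comp (snd.comp (Primrec.unpair.comp hk))
  have hb : Primrec fun q : ℕ × ℕ => q.1.unpair.2.unpair.1 := fst.comp hbc
  have hc : Primrec fun q : ℕ × ℕ => q.1.unpair.2.unpair.2 := snd.comp hbc
  have hn : Primrec fun q : ℕ × ℕ => q.2 := snd
  have hB : Primrec fun N : ℕ => ((N + 1) ^ 2 + 1) ^ 2 :=
    pr_sq (Primrec.succ.comp (pr_sq (Primrec.succ.comp Primrec.id)))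
  refine pr_count hB (R := fun q : ℕ × ℕ => DP q.2 q.1.unpair.1 q.1.unpair.2.unpair.1
    q.1.unpair.2.unpair.2) ?_ number fun N => rfl
  exact (pp_eq (Primrec.nat_mul.comp (Primrec.nat_mul.comp ha hb) hc) hn).and
    (((pp_cop hn ha hb).and ((pp_cop hn ha hc).and (pp_cop hn hb hc))).and
      ((pp_cub hn ha hb hc).and ((pp_cub hn hb hc ha).and (pp_cub hn hc ha hb))))

/-- **The algorithm is primitive recursive.** -/
theorem pr_answer : Primrec answer := by
  have hc : Primrec fun A : ℤ => core A.natAbs := pr_core.comp pr_natAbs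
  have h1 : Primrec fun A : ℤ => some (2 * (Nat.log 3 (number (core A.natAbs)) - 1)) :=
    Primrec.option_some.comp (Primrec.nat_mul.comp (const 2)
      (Primrec.nat_sub.comp (pr_log (pr_number.comp hc)) (const 1)))
  have h2 : PrimrecPred fun A : ℤ => IsBase (core A.natAbs) := pp_base.comp hc
  have h3 : Primrec fun A : ℤ => if IsBase (core A.natAbs) then
      some (2 * (Nat.log 3 (number (core A.natAbs)) - 1)) else none :=
    Primrec.ite h2 h1 (const none)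
  refine h3.of_eq fun A => ?_
  unfold answer
  by_cases h0 : A.natAbs = 0
  · have e1 : ¬ IsBase (core A.natAbs) := by
      rw [h0]
      unfold core
      rw [Nat.zero_div]
      exact fun h => h.1 rfl
    have e2 : ¬ IsBase (cubeFree A.natAbs) := by
      rw [h0]
      have : cubeFree 0 = 1 := by
        unfold cubeFree
        simp
      rw [this]
      rintro ⟨-, -, -, -, -, q, hq, -, hq1, -⟩
      exact hq.one_lt.ne' (Nat.dvd_one.1 hq1)
    rw [if_neg e1, if_neg e2]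
  · rw [core_eq h0]
    by_cases hb : IsBase (cubeFree A.natAbs)
    · rw [if_pos hb, if_pos hb, number_eq hb.1]
      rfl
    · rw [if_neg hb, if_neg hb]

end Pool.Agent.Q1.CD
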