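import Pool.Agent.Q283.Q3.Kt
import Pool.Agent.Q1.CD.Defs

/-! The number of the decompositions of a base number is `3 ^ (r + 1)`, `r` the corank -/

set_option autoImplicit false

open scoped Classical

namespace Pool.Agent.Q1.CD

open Finset Module
open Pool.Agent.Y703.CX (lam LamP)
open Pool.Agent.Y703.CT (Cls NoSplit Base)
open Pool.Agent.Y710.CX (cube_two)
open Q283.Q3 (KT mem_KT)
open Q283.Q3A (finrank_ge)
open Q283.Q3N (dd prod_dd lam_dd fe fe_ne)
open Q283.Q3B (rr)

theorem base_iff (N : ℕ) : IsBase N ↔ Cls N := by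
  unfold IsBase Pool.Agent.Y703.CT.Cls Pool.Agent.Y703.CT.Base
  tauto

theorem dd_mem {N : ℕ} (hN : N ≠ 0) (c : ℕ → ZMod 3) (i : ZMod 3) {p : ℕ} (hp : p.Prime) :
    p ∣ dd N c i ↔ p ∈ N.primeFactors ∧ c p = i := by
  constructor
  · intro hd
    unfold dd at hd
    obtain ⟨q, hq, hpq⟩ := (hp.prime.dvd_finsetProd_iff _).1 hd
    have h1 := hp.dvd_of_dvd_pow hpq
    rw [mem_filter] at hq
    rw [(Nat.prime_dvd_prime_iff_eq hp (Nat.prime_of_mem_primeFactors hq.1)).1 h1]
    exact hq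
  · rintro ⟨h1, h2⟩
    unfold dd
    refine Dvd.dvd.trans ?_ (Finset.dvd_prod_of_mem _ (Finset.mem_filter.2 ⟨h1, h2⟩))
    refine dvd_pow_self p ?_
    exact (hp.factorization_pos_of_dvd hN (Nat.dvd_of_mem_primeFactors h1)).ne'

/-- a solution gives a decomposition -/
theorem dec_of_sol (h : LamP) {N : ℕ} (hb : Base N) {c : ℕ → ZMod 3}
    (hc : ∀ p ∈ N.primeFactors, p % 3 = 1 →
      ∑ q ∈ N.primeFactors, (c q - c p) * (fe N q * lam p q) = 0) : Decomposition N (dd N c) := by
  have hN : N ≠ 0 := hb.1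
  have hcase : ∀ p ∈ N.primeFactors, p % 3 = 1 ∨ p % 3 = 2 := by
    intro p hp
    refine Q283.Q3.mod3' (Nat.prime_of_mem_primeFactors hp) fun h3 => ?_
    rw [h3] at hp
    exact hb.2.1 (Nat.dvd_of_mem_primeFactors hp)
  refine ⟨prod_dd hN c, fun i j hij => ?_, fun i p hp hd => ?_⟩
  · refine Nat.coprime_of_dvd fun p hp h1 h2 => ?_
    have e1 := ((dd_mem hN c _ hp).1 h1).2
    have e2 := ((dd_mem hN c _ hp).1 h2).2
    exact hij (e1.symm.trans e2)
  · obtain ⟨hpS, hcp⟩ := (dd_mem hN c _ hp).1 hd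
    rcases hcase p hpS with h1 | h2
    · obtain ⟨k1, k2⟩ := lam_dd h (N := N) c hp h1
      rw [hcp] at k1 k2
      have k3 := hc p hpS h1
      rw [hcp] at k3
      rw [k3] at k2
      have := (h.cube p _ hp h1 k1).1 k2
      push_cast at this
      exact this
    · exact cube_two hp h2 _

/-- a decomposition comes from a solution -/
theorem sol_of_dec (h : LamP) {N : ℕ} (hb : Base N) {d : ZMod 3 → ℕ} (hdec : Decomposition N d) :
    ∃ c : ℕ → ZMod 3, dd N c = d ∧ ∀ p ∈ N.primeFactors, p % 3 = 1 →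
      ∑ q ∈ N.primeFactors, (c q - c p) * (fe N q * lam p q) = 0 := by
  obtain ⟨hd, hcop, hcube⟩ := hdec
  have hN : N ≠ 0 := hb.1
  have hS : ∀ q ∈ N.primeFactors, q.Prime := fun q hq => Nat.prime_of_mem_primeFactors hq
  -- the labels
  have hex : ∀ p ∈ N.primeFactors, ∃ i : ZMod 3, p ∣ d i := by
    intro p hp
    have h1 : p ∣ ∏ i, d i := by
      rw [hd]
      exact Nat.dvd_of_mem_primeFactors hp
    obtain ⟨i, -, hi⟩ := ((hS p hp).prime.dvd_finsetProd_iff _).1 h1
    exact ⟨i, hi⟩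
  have huniq : ∀ p : ℕ, p.Prime → ∀ i j : ZMod 3, p ∣ d i → p ∣ d j → i = j := by
    intro p hp i j h1 h2
    by_contra hne
    have h3 : p ∣ Nat.gcd (d i) (d j) := Nat.dvd_gcd h1 h2
    rw [Nat.Coprime.gcd_eq_one (hcop i j hne)] at h3
    exact hp.one_lt.ne' (Nat.dvd_one.1 h3)
  obtain ⟨c, hc⟩ : ∃ c : ℕ → ZMod 3, ∀ p ∈ N.primeFactors, p ∣ d (c p) := by
    refine ⟨fun p => if hp : ∃ i : ZMod 3, p ∣ d i then hp.choose else 0, fun p hp => ?_⟩
    have := hex p hp
    simp only [this, dif_pos]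
    exact this.choose_spec
  have hd0 : ∀ i, d i ≠ 0 := fun i h0 => hN (by rw [← hd]; exact prod_eq_zero (mem_univ i) h0)
  have hdD : ∀ i, d i ∣ N := fun i => by
    rw [← hd]
    exact Finset.dvd_prod_of_mem _ (Finset.mem_univ i)
  have hdd : ∀ i, dd N c i = d i := by
    intro i
    unfold dd
    conv_rhs => rw [← Nat.prod_factorization_pow_eq_self (hd0 i)]
    have e1 : (d i).primeFactors = N.primeFactors.filter fun q => c q = i := by
      ext p
      rw [Finset.mem_filter, Nat.mem_primeFactors, Nat.mem_primeFactors]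
      constructor
      · rintro ⟨hp, hpd, -⟩
        have hpm : p ∈ N.primeFactors := Nat.mem_primeFactors.2 ⟨hp, hpd.trans (hdD i), hN⟩
        exact ⟨⟨hp, hpd.trans (hdD i), hN⟩, huniq p hp _ _ (hc p hpm) hpd⟩
      · rintro ⟨⟨hp, hpD, -⟩, rfl⟩
        exact ⟨hp, hc p (Nat.mem_primeFactors.2 ⟨hp, hpD, hN⟩), hd0 _⟩
    rw [Finsupp.prod, Nat.support_factorization, e1]
    refine prod_congr rfl fun q hq => ?_
    rw [mem_filter] at hq
    congr 1
    have hq' := hS q hq.1
    -- the factorization of the product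
    have h1 : N.factorization q = ∑ j, (d j).factorization q := by
      rw [← hd, Nat.factorization_prod (fun j _ => hd0 j), Finsupp.finsetSum_apply]
    rw [h1, sum_eq_single i]
    · intro j _ hj
      refine Nat.factorization_eq_zero_of_not_dvd fun h' => hj ?_
      have h2 : q ∣ d i := by
        rw [← hq.2]
        exact hc q hq.1
      exact huniq q hq' j i h' h2
    · intro h'
      exact absurd (mem_univ i) h'
  refine ⟨c, funext hdd, fun p hp hp1 => ?_⟩
  obtain ⟨k1, k2⟩ := lam_dd h (N := N) c (hS p hp) hp1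
  rw [← k2]
  rw [h.cube p _ (hS p hp) hp1 k1, hdd, hdd]
  have := hcube (c p) p (hS p hp) (hc p hp)
  push_cast
  exact this

/-- the extension by zero -/
noncomputable def ext0 {T : Finset ℕ} (x : T → ZMod 3) : ℕ → ZMod 3 :=
  fun p => if hp : p ∈ T then x ⟨p, hp⟩ else 0

theorem ext0_coe {T : Finset ℕ} (x : T → ZMod 3) (p : T) : ext0 x p = x p := dif_pos p.2

theorem sum_ext {T : Finset ℕ} (e : ℕ → ZMod 3) (c : ℕ → ZMod 3) (p : ℕ) :
    ∑ q : T, e p * e q * lam p q * (c q - c p) =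
      e p * ∑ q ∈ T, (c q - c p) * (e q * lam p q) := by
  rw [mul_sum, ← Finset.sum_coe_sort T fun q => e p * ((c q - c p) * (e q * lam p q))]
  refine sum_congr rfl fun q _ => ?_
  ring

theorem mem_iff {N : ℕ} (hb : Base N) (c : ℕ → ZMod 3) :
    (fun p : N.primeFactors => c p) ∈ KT N.primeFactors (fe N) ↔
      ∀ p ∈ N.primeFactors, p % 3 = 1 →
        ∑ q ∈ N.primeFactors, (c q - c p) * (fe N q * lam p q) = 0 := by
  rw [mem_KT]
  constructor
  · rintro ⟨-, h⟩ p hp hp1
    have h1 := h ⟨p, hp⟩ hp1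
    have h2 := (sum_ext (T := N.primeFactors) (fe N) c p).symm.trans h1
    exact (mul_eq_zero.1 h2).resolve_left ((fe_ne hb).2 hp)
  · intro h
    refine ⟨fun p hp => absurd hp ((fe_ne hb).2 p.2), fun p hp1 => ?_⟩
    have h2 := sum_ext (T := N.primeFactors) (fe N) c p
    rw [h p p.2 hp1, mul_zero] at h2
    exact h2

/-- **The number of the decompositions.** -/
theorem card_dec {N : ℕ} (hC : Cls N) : {d | Decomposition N d}.ncard = 3 ^ (rr N + 1) := by
  have hL := Pool.Agent.Y333.CX.t_LAM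
  have hb := hC.1
  have hN : N ≠ 0 := hb.1
  have hext : ∀ x : KT N.primeFactors (fe N),
      ∀ p ∈ N.primeFactors, p % 3 = 1 →
        ∑ q ∈ N.primeFactors, (ext0 x.1 q - ext0 x.1 p) * (fe N q * lam p q) = 0 := by
    intro x
    refine (mem_iff hb (ext0 x.1)).1 ?_
    have e : (fun p : N.primeFactors => ext0 x.1 p) = x.1 := funext fun p => ext0_coe x.1 p
    rw [e]
    exact x.2
  have e1 : Nat.card (KT N.primeFactors (fe N)) = Nat.card {d | Decomposition N d} := by
    refine Nat.card_congr (Equiv.ofBijective (fun x => (⟨dd N (ext0 x.1), dec_of_sol hL hb (hext x)⟩ :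
      {d | Decomposition N d})) ⟨?_, ?_⟩)
    · intro x y hxy
      have h1 : dd N (ext0 x.1) = dd N (ext0 y.1) := congrArg Subtype.val hxy
      refine Subtype.ext (funext fun p => ?_)
      have hp := Nat.prime_of_mem_primeFactors p.2
      have h2 : (p : ℕ) ∣ dd N (ext0 x.1) (ext0 x.1 p) := (dd_mem hN _ _ hp).2 ⟨p.2, rfl⟩
      rw [h1] at h2
      have h3 := ((dd_mem hN _ _ hp).1 h2).2
      rw [ext0_coe, ext0_coe] at h3
      exact h3.symm
    · rintro ⟨d, hd⟩
      obtain ⟨c, hc1, hc2⟩ := sol_of_dec hL hb hd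
      refine ⟨⟨fun p => c p, (mem_iff hb c).2 hc2⟩, Subtype.ext ?_⟩
      show dd N (ext0 fun p : N.primeFactors => c p) = d
      rw [← hc1]
      funext i
      unfold dd
      refine prod_congr ?_ fun _ _ => rfl
      ext q
      rw [mem_filter, mem_filter]
      refine and_congr_right fun hq => ?_
      have : ext0 (fun p : N.primeFactors => c p) q = c q := dif_pos hq
      rw [this]
  have e2 : Nat.card (KT N.primeFactors (fe N)) = 3 ^ finrank (ZMod 3) (KT N.primeFactors (fe N)) := by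
    rw [Module.natCard_eq_pow_finrank (K := ZMod 3), Nat.card_zmod]
  obtain ⟨q, hq, -, hqD, -⟩ := hC.2.2.2
  have hqm : q ∈ N.primeFactors := Nat.mem_primeFactors.2 ⟨hq, hqD, hN⟩
  have h1 := finrank_ge (T := N.primeFactors) (e := fe N) ⟨q, hqm, (fe_ne hb).2 hqm⟩
  have e3 : rr N + 1 = finrank (ZMod 3) (KT N.primeFactors (fe N)) := by
    unfold rr
    omega
  rw [e3, ← e2, e1]
  rfl

theorem exponent_eq {N : ℕ} (hC : Cls N) : exponent N = rr N := by
  unfold exponent
  rw [card_dec hC, Nat.log_pow (by norm_num), Nat.add_sub_cancel]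

end Pool.Agent.Q1.CD
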