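import Pool.Agent.Q1.CD.Sol
import Pool.Agent.Q1.CD.Dec
import Pool.Agent.Q1.CD.Comp
import Pool.Agent.Y703.CX.Fin

/-! The algorithm: soundness and the values at the base numbers -/

set_option autoImplicit false

open scoped Classical

namespace Pool.Agent.Q1.CD

open Pool.Agent.Y703.CT (Cls Base Triv3)
open Q283.Q3B (rr)

/-- The curve `E_n : y² + n y = x³`; it is `3`-isogenous to `X³ + Y³ = n`. -/
def curve (n : ℕ) : WeierstrassCurve ℚ := ⟨0, 0, (n : ℚ), 0, 0⟩

/-- the rank of `E_n(ℚ)` -/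
noncomputable def rank (n : ℕ) : ℕ := Module.finrank ℤ (curve n).toAffine.Point

/-- `E_n(ℚ)` is finite and `Ш(E_n/ℚ)[3^∞] = 0` -/
def Good (n : ℕ) : Prop :=
  Finite (curve n).toAffine.Point ∧
    ∀ (k : ℕ) (x : Pool.Agent.TH841.SH.D.Sha (curve n)), 3 ^ k • x = 0 → x = 0

theorem curve_eq (n : ℕ) : Pool.Agent.Y703.CT.EQ (Pool.Agent.Y703.CT.WD n) = curve n := by
  unfold Pool.Agent.Y703.CT.EQ Pool.Agent.Y703.CT.WD curve WeierstrassCurve.map
  simp

theorem good_iff (n : ℕ) : Good n ↔ Triv3 n := by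
  unfold Good Pool.Agent.Y703.CT.Triv3
  rw [curve_eq]

theorem base_two {n : ℕ} (h : Cls n) : 2 ≤ n := by
  obtain ⟨q, hq, -, hqn, -⟩ := h.2.2.2
  exact hq.two_le.trans (Nat.le_of_dvd (Nat.pos_of_ne_zero h.1.1) hqn)

theorem jexK : ∃ j : Pool.Agent.Y692.QS.Ei ≃+* NumberField.RingOfIntegers (CyclotomicField 3 ℚ), j = j := by
  haveI : IsCyclotomicExtension {3} ℚ (CyclotomicField 3 ℚ) :=
    CyclotomicField.isCyclotomicExtension 3 ℚ
  obtain ⟨⟨j, -⟩, -⟩ := Pool.Agent.Y455.CTK.jex (CyclotomicField 3 ℚ)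
  exact ⟨j, rfl⟩

theorem rr_zero {n : ℕ} (hC : Cls n) : rr n = 0 ↔ Good n := by
  obtain ⟨j, -⟩ := jexK
  rw [good_iff]
  exact (Q283.Q3B.sel_N (CyclotomicField 3 ℚ) j hC).2.2

theorem rank_le {n : ℕ} (hC : Cls n) : rank n ≤ 2 * rr n := by
  obtain ⟨j, -⟩ := jexK
  exact (Q283.Q3B.sel_N (CyclotomicField 3 ℚ) j hC).2.1

/-- the value at a base number, times a cube -/
theorem answer_cube {n b : ℕ} (hC : Cls n) {A : ℤ} (hA : A ≠ 0) (hb : A.natAbs = n * b ^ 3) :
    answer A = some (2 * rr n) := by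
  have h0 : A.natAbs ≠ 0 := Int.natAbs_ne_zero.2 hA
  have h1 := Q283.ND.cf_mul h0
  have h2 : n = cubeFree A.natAbs :=
    Q283.Q3N.cf_unique (hb.symm.trans h1) (by rw [← hb]; exact h0) hC.1.2.2 (Q283.ND.cf_free _)
  unfold answer
  rw [← h2, if_pos ((base_iff n).2 hC), exponent_eq hC]

theorem answer_nat {n : ℕ} (hC : Cls n) : answer (n : ℤ) = some (2 * rr n) :=
  answer_cube (b := 1) hC (by exact_mod_cast hC.1.1) (by simp)

theorem answer_cf {n : ℕ} (hn : n ≠ 0) (hC : Cls (cubeFree n)) :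
    answer (n : ℤ) = some (2 * rr (cubeFree n)) :=
  answer_cube (b := ∏ p ∈ n.primeFactors, p ^ (n.factorization p / 3)) hC (by exact_mod_cast hn)
    (by rw [Int.natAbs_natCast]; exact Q283.ND.cf_mul hn)

/-- **Soundness.** -/
theorem sound {A : ℤ} (hA : A ≠ 0) (h : answer A = some 0) :
    ∀ X Y : ℚ, X ^ 3 + Y ^ 3 = A → X = Y := by
  intro X Y hq
  have h0 : A.natAbs ≠ 0 := Int.natAbs_ne_zero.2 hA
  unfold answer at h
  by_cases hb : IsBase (cubeFree A.natAbs)
  · rw [if_pos hb] at h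
    have hC := (base_iff _).1 hb
    have h1 : 2 * exponent (cubeFree A.natAbs) = 0 := Option.some.inj h
    rw [exponent_eq hC] at h1
    have h2 : rr (cubeFree A.natAbs) = 0 := by omega
    have h3 := (good_iff _).1 ((rr_zero hC).1 h2)
    exact sol_cube (base_two hC) hC.1.2.2 h3.1 hA (Q283.ND.cf_mul h0) hq
  · rw [if_neg hb] at h
    exact absurd h (by simp)

/-- the bound for the rank -/
theorem bound {A : ℤ} (hA : A ≠ 0) {k : ℕ} (h : answer A = some k) :
    IsBase (cubeFree A.natAbs) ∧ rank (cubeFree A.natAbs) ≤ k := by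
  unfold answer at h
  by_cases hb : IsBase (cubeFree A.natAbs)
  · rw [if_pos hb] at h
    have hC := (base_iff _).1 hb
    have h1 : 2 * exponent (cubeFree A.natAbs) = k := Option.some.inj h
    rw [exponent_eq hC] at h1
    exact ⟨hb, (rank_le hC).trans h1.le⟩
  · rw [if_neg hb] at h
    exact absurd h (by simp)

end Pool.Agent.Q1.CD
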