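import Mathlib
import Pool.Agent.Y703.CX.Rank

/-! `X³ + Y³ = m` has no rational solutions with `X ≠ Y` if `E_m(ℚ)` is finite: a primitive solution gives
one with a greater denominator -/

set_option autoImplicit false

open scoped Classical

namespace Pool.Agent.Q1.CD

theorem unit_int {a : ℤ} (h : IsUnit a) : a = 1 ∨ a = -1 := Int.isUnit_iff.1 h

/-- the difference of the cubes is not small -/
theorem big {x y : ℤ} (hx : x ≠ 0) (hy : y ≠ 0) (h1 : x ≠ y) (h2 : x + y ≠ 0) : 3 < |x ^ 3 - y ^ 3| := by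
  by_contra hcon
  push Not at hcon
  obtain ⟨s, hs⟩ : ∃ s, s = x + y := ⟨_, rfl⟩
  obtain ⟨t, ht⟩ : ∃ t, t = x - y := ⟨_, rfl⟩
  have ht0 : t ≠ 0 := by rw [ht]; exact sub_ne_zero.2 h1
  have hs0 : s ≠ 0 := by rw [hs]; exact h2
  have e : 4 * (x ^ 3 - y ^ 3) = t * (t ^ 2 + 3 * s ^ 2) := by rw [hs, ht]; ring
  have h4 : |t| * (t ^ 2 + 3 * s ^ 2) ≤ 12 := by
    have h5 : |4 * (x ^ 3 - y ^ 3)| = |t| * (t ^ 2 + 3 * s ^ 2) := by
      rw [e, abs_mul, abs_of_nonneg (by positivity : (0 : ℤ) ≤ t ^ 2 + 3 * s ^ 2)]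
    rw [← h5, abs_mul, abs_of_pos (by norm_num : (0 : ℤ) < 4)]
    linarith
  have ht1 : 1 ≤ |t| := Int.one_le_abs ht0
  have hs1 : 1 ≤ s ^ 2 := by
    have := Int.one_le_abs hs0
    nlinarith [sq_abs s]
  have ht2 : |t| ≤ 2 := by
    by_contra h
    push Not at h
    have h6 : 3 ≤ |t| := by omega
    have h7 : t ^ 2 = |t| ^ 2 := (sq_abs t).symm
    nlinarith
  have ht3 : t ≤ 2 := (le_abs_self t).trans ht2
  have ht4 : -2 ≤ t := by
    have := neg_abs_le t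
    linarith
  have hs3 : s ≤ 2 := by nlinarith [sq_abs t]
  have hs4 : -2 ≤ s := by nlinarith [sq_abs t]
  have hx2 : 2 * x = s + t := by rw [hs, ht]; ring
  have hy2 : 2 * y = s - t := by rw [hs, ht]; ring
  interval_cases t <;> interval_cases s <;> simp at * <;> omega

/-- **A primitive solution gives a greater one.** -/
theorem step {m : ℤ} (hm : 2 ≤ m) (hcf : ∀ p : ℕ, p.Prime → ¬ (p : ℤ) ^ 3 ∣ m) {x y z : ℤ}
    (h : x ^ 3 + y ^ 3 = m * z ^ 3) (hz : 0 < z) (hxy : IsCoprime x y) (hne : x ≠ y) :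
    ∃ x' y' z' : ℤ, x' ^ 3 + y' ^ 3 = m * z' ^ 3 ∧ z < z' ∧ IsCoprime x' y' ∧ x' ≠ y' := by
  have nz : ∀ {x y z : ℤ}, x ^ 3 + y ^ 3 = m * z ^ 3 → 0 < z → IsCoprime x y → x ≠ 0 := by
    rintro x y z h hz hxy rfl
    have h1 : y = 1 ∨ y = -1 := unit_int (isCoprime_zero_left.1 hxy)
    have h3 : 0 < z ^ 3 := by positivity
    rcases h1 with rfl | rfl <;> nlinarith
  have hx : x ≠ 0 := nz h hz hxy
  have hy : y ≠ 0 := nz (x := y) (y := x) (z := z) (by rw [← h]; ring) hz hxy.symm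
  have hs : x + y ≠ 0 := by
    intro h0
    have h1 : y = -x := by linarith
    rw [h1] at h
    have h2 : m * z ^ 3 = 0 := by rw [← h]; ring
    have h3 : 0 < m * z ^ 3 := by positivity
    exact h3.ne' h2
  have hbig := big hx hy hne hs
  obtain ⟨a, ha⟩ : ∃ a, a = x * (x ^ 3 + 2 * y ^ 3) := ⟨_, rfl⟩
  obtain ⟨b, hb⟩ : ∃ b, b = -(y * (2 * x ^ 3 + y ^ 3)) := ⟨_, rfl⟩
  obtain ⟨c, hc⟩ : ∃ c, c = z * (x ^ 3 - y ^ 3) := ⟨_, rfl⟩
  have e1 : a ^ 3 + b ^ 3 = m * c ^ 3 := by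
    have e2 : a ^ 3 + b ^ 3 = (x ^ 3 + y ^ 3) * (x ^ 3 - y ^ 3) ^ 3 := by rw [ha, hb]; ring
    rw [e2, h, hc]
    ring
  have c1 : IsCoprime x b := by
    rw [hb]
    refine IsCoprime.neg_right (IsCoprime.mul_right hxy ?_)
    have : IsCoprime x (y ^ 3) := hxy.pow_right
    have e3 : 2 * x ^ 3 + y ^ 3 = y ^ 3 + x * (2 * x ^ 2) := by ring
    rw [e3]
    exact IsCoprime.add_mul_left_right this _
  have c2 : IsCoprime y a := by
    rw [ha]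
    refine IsCoprime.mul_right hxy.symm ?_
    have : IsCoprime y (x ^ 3) := hxy.symm.pow_right
    have e3 : x ^ 3 + 2 * y ^ 3 = x ^ 3 + y * (2 * y ^ 2) := by ring
    rw [e3]
    exact IsCoprime.add_mul_left_right this _
  obtain ⟨g, hg⟩ : ∃ g : ℕ, g = Int.gcd a b := ⟨_, rfl⟩
  have hga : (g : ℤ) ∣ a := by rw [hg]; exact Int.gcd_dvd_left ..
  have hgb : (g : ℤ) ∣ b := by rw [hg]; exact Int.gcd_dvd_right ..
  have g3 : (g : ℤ) ∣ 3 := by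
    have d1 : IsCoprime (g : ℤ) x := (IsCoprime.of_isCoprime_of_dvd_right c1 hgb).symm
    have d2 : IsCoprime (g : ℤ) y := (IsCoprime.of_isCoprime_of_dvd_right c2 hga).symm
    have d3 : (g : ℤ) ∣ x ^ 3 + 2 * y ^ 3 := d1.dvd_of_dvd_mul_left (ha ▸ hga)
    have d4 : (g : ℤ) ∣ 2 * x ^ 3 + y ^ 3 := by
      refine d2.dvd_of_dvd_mul_left ?_
      have := (dvd_neg.2 hgb)
      rwa [hb, neg_neg] at this
    have d5 : (g : ℤ) ∣ x ^ 3 * 3 := by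
      have e4 : x ^ 3 * 3 = 2 * (2 * x ^ 3 + y ^ 3) - (x ^ 3 + 2 * y ^ 3) := by ring
      rw [e4]
      exact dvd_sub (Dvd.dvd.mul_left d4 2) d3
    exact (IsCoprime.pow_right d1).dvd_of_dvd_mul_left d5
  have hgN : g ∣ 3 := by exact_mod_cast g3
  have hg13 : g = 1 ∨ g = 3 := (Nat.dvd_prime Nat.prime_three).1 hgN
  have hg0 : 0 < (g : ℤ) := by rcases hg13 with h | h <;> rw [h] <;> norm_num
  have hgc : (g : ℤ) ∣ c := by
    rcases hg13 with rfl | rfl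
    · exact one_dvd _
    · by_contra hcon
      have h2 : ((3 : ℕ) : ℤ) ^ 3 ∣ m * c ^ 3 := by
        rw [← e1]
        exact dvd_add (pow_dvd_pow_of_dvd hga 3) (pow_dvd_pow_of_dvd hgb 3)
      have h3 : IsCoprime (((3 : ℕ) : ℤ) ^ 3) (c ^ 3) := by
        refine IsCoprime.pow ?_
        exact (Int.prime_three.coprime_iff_not_dvd).2 hcon
      exact hcf 3 Nat.prime_three (h3.dvd_of_dvd_mul_right h2)
  obtain ⟨a', ha'⟩ := hga
  obtain ⟨b', hb'⟩ := hgb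
  obtain ⟨c', hc'⟩ := hgc
  have hab : IsCoprime a' b' := by
    rw [Int.isCoprime_iff_gcd_eq_one]
    have h1 : Int.gcd a b = g * Int.gcd a' b' := by
      rw [ha', hb', Int.gcd_mul_left, Int.natAbs_natCast]
    rw [← hg] at h1
    have h2 : 0 < g := by exact_mod_cast hg0
    exact (Nat.eq_of_mul_eq_mul_left h2 (by rw [mul_one]; exact h1)).symm
  have e5 : a' ^ 3 + b' ^ 3 = m * c' ^ 3 := by
    have h1 : (g : ℤ) ^ 3 * (a' ^ 3 + b' ^ 3) = (g : ℤ) ^ 3 * (m * c' ^ 3) := by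
      have : (g : ℤ) ^ 3 * (a' ^ 3 + b' ^ 3) = a ^ 3 + b ^ 3 := by rw [ha', hb']; ring
      rw [this, e1, hc']
      ring
    exact mul_left_cancel₀ (pow_ne_zero 3 hg0.ne') h1
  have hlt : z < |c'| := by
    have h1 : |c| = g * |c'| := by rw [hc', abs_mul, abs_of_pos hg0]
    have h2 : |c| = z * |x ^ 3 - y ^ 3| := by rw [hc, abs_mul, abs_of_pos hz]
    have h3 : (g : ℤ) ≤ 3 := by rcases hg13 with h | h <;> rw [h] <;> norm_num
    have h4 : z * 3 < g * |c'| := by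
      rw [← h1, h2]
      exact mul_lt_mul_of_pos_left hbig hz
    have h5 : (g : ℤ) * |c'| ≤ 3 * |c'| := mul_le_mul_of_nonneg_right h3 (abs_nonneg _)
    linarith
  have hnee : ∀ {x' y' z' : ℤ}, x' ^ 3 + y' ^ 3 = m * z' ^ 3 → z < z' → IsCoprime x' y' → x' ≠ y' := by
    rintro x' y' z' h1 h2 h3 rfl
    have h4 : x' = 1 ∨ x' = -1 := unit_int (isCoprime_self.1 h3)
    have h5 : 2 ≤ z' := by omega
    have h6 : 8 ≤ z' ^ 3 := by nlinarith [sq_nonneg (z' - 2), mul_nonneg (by omega : 0 ≤ z' - 2) (sq_nonneg z')]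
    rcases h4 with rfl | rfl <;> nlinarith
  rcases le_or_gt 0 c' with h0 | h0
  · rw [abs_of_nonneg h0] at hlt
    exact ⟨a', b', c', e5, hlt, hab, hnee e5 hlt hab⟩
  · rw [abs_of_neg h0] at hlt
    have e6 : (-a') ^ 3 + (-b') ^ 3 = m * (-c') ^ 3 := by
      have : (-a') ^ 3 + (-b') ^ 3 = -(a' ^ 3 + b' ^ 3) := by ring
      rw [this, e5]
      ring
    exact ⟨-a', -b', -c', e6, hlt, hab.neg_neg, hnee e6 hlt hab.neg_neg⟩

/-- a rational solution gives a primitive one -/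
theorem prim {m : ℤ} (hcf : ∀ p : ℕ, p.Prime → ¬ (p : ℤ) ^ 3 ∣ m) {X Y : ℚ}
    (h : X ^ 3 + Y ^ 3 = m) (hne : X ≠ Y) :
    ∃ x y z : ℤ, x ^ 3 + y ^ 3 = m * z ^ 3 ∧ 0 < z ∧ IsCoprime x y ∧ x ≠ y := by
  obtain ⟨x₀, hx₀⟩ : ∃ x₀ : ℤ, x₀ = X.num * Y.den := ⟨_, rfl⟩
  obtain ⟨y₀, hy₀⟩ : ∃ y₀ : ℤ, y₀ = Y.num * X.den := ⟨_, rfl⟩
  obtain ⟨z₀, hz₀⟩ : ∃ z₀ : ℤ, z₀ = (X.den : ℤ) * Y.den := ⟨_, rfl⟩
  have hz0 : 0 < z₀ := by
    rw [hz₀]
    have h1 := X.pos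
    have h2 := Y.pos
    positivity
  have ex : (x₀ : ℚ) = X * z₀ := by
    rw [hx₀, hz₀]
    push_cast
    rw [← Rat.mul_den_eq_num X]
    ring
  have ey : (y₀ : ℚ) = Y * z₀ := by
    rw [hy₀, hz₀]
    push_cast
    rw [← Rat.mul_den_eq_num Y]
    ring
  have e0 : x₀ ^ 3 + y₀ ^ 3 = m * z₀ ^ 3 := by
    have : ((x₀ ^ 3 + y₀ ^ 3 : ℤ) : ℚ) = ((m * z₀ ^ 3 : ℤ) : ℚ) := by
      push_cast
      rw [ex, ey, ← h]
      ring
    exact_mod_cast this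
  have hne0 : x₀ ≠ y₀ := by
    intro h1
    have h2 : X * z₀ = Y * z₀ := by rw [← ex, ← ey, h1]
    exact hne (mul_right_cancel₀ (by exact_mod_cast hz0.ne') h2)
  obtain ⟨g, hg⟩ : ∃ g : ℕ, g = Int.gcd (Int.gcd x₀ y₀) z₀ := ⟨_, rfl⟩
  have hgz : (g : ℤ) ∣ z₀ := by rw [hg]; exact Int.gcd_dvd_right ..
  have hgg : (g : ℤ) ∣ (Int.gcd x₀ y₀ : ℕ) := by rw [hg]; exact Int.gcd_dvd_left ..
  have hgx : (g : ℤ) ∣ x₀ := hgg.trans (Int.gcd_dvd_left ..)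
  have hgy : (g : ℤ) ∣ y₀ := hgg.trans (Int.gcd_dvd_right ..)
  have hg0 : 0 < (g : ℤ) := by
    have : g ≠ 0 := by
      rintro rfl
      exact hz0.ne' (zero_dvd_iff.1 (by exact_mod_cast hgz))
    exact_mod_cast Nat.pos_of_ne_zero this
  obtain ⟨x, hx⟩ := hgx
  obtain ⟨y, hy⟩ := hgy
  obtain ⟨z, hz⟩ := hgz
  have hz1 : 0 < z := by
    by_contra hcon
    push Not at hcon
    rw [hz] at hz0
    nlinarith
  have e1 : x ^ 3 + y ^ 3 = m * z ^ 3 := by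
    have h1 : (g : ℤ) ^ 3 * (x ^ 3 + y ^ 3) = (g : ℤ) ^ 3 * (m * z ^ 3) := by
      have : (g : ℤ) ^ 3 * (x ^ 3 + y ^ 3) = x₀ ^ 3 + y₀ ^ 3 := by rw [hx, hy]; ring
      rw [this, e0, hz]
      ring
    exact mul_left_cancel₀ (pow_ne_zero 3 hg0.ne') h1
  have h3 : Int.gcd (Int.gcd x y) z = 1 := by
    have h1 : Int.gcd (Int.gcd x₀ y₀) z₀ = g * Int.gcd (Int.gcd x y) z := by
      rw [hx, hy, hz, Int.gcd_mul_left, Int.natAbs_natCast]
      push_cast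
      rw [Int.gcd_mul_left, Int.natAbs_natCast]
    rw [← hg] at h1
    have h2 : 0 < g := by exact_mod_cast hg0
    exact (Nat.eq_of_mul_eq_mul_left h2 (by rw [mul_one]; exact h1)).symm
  refine ⟨x, y, z, e1, hz1, ?_, fun h1 => hne0 (by rw [hx, hy, h1])⟩
  rw [Int.isCoprime_iff_gcd_eq_one]
  by_contra hcon
  obtain ⟨p, hp, hpd⟩ := Nat.exists_prime_and_dvd hcon
  have hpx : (p : ℤ) ∣ x := (Int.natCast_dvd_natCast.2 hpd).trans (Int.gcd_dvd_left ..)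
  have hpy : (p : ℤ) ∣ y := (Int.natCast_dvd_natCast.2 hpd).trans (Int.gcd_dvd_right ..)
  have hpz : ¬ (p : ℤ) ∣ z := by
    intro h4
    have h5 : (p : ℤ) ∣ (Int.gcd (Int.gcd x y) z : ℕ) :=
      Int.dvd_coe_gcd (Int.natCast_dvd_natCast.2 hpd) h4
    rw [h3] at h5
    exact hp.one_lt.ne' (Nat.dvd_one.1 (by exact_mod_cast h5))
  have h6 : (p : ℤ) ^ 3 ∣ m * z ^ 3 := by
    rw [← e1]
    exact dvd_add (pow_dvd_pow_of_dvd hpx 3) (pow_dvd_pow_of_dvd hpy 3)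
  have h7 : IsCoprime ((p : ℤ) ^ 3) (z ^ 3) :=
    IsCoprime.pow ((Nat.prime_iff_prime_int.1 hp).coprime_iff_not_dvd.2 hpz)
  exact hcf p hp (h7.dvd_of_dvd_mul_right h6)

/-- infinitely many solutions -/
theorem inf {m : ℤ} (hm : 2 ≤ m) (hcf : ∀ p : ℕ, p.Prime → ¬ (p : ℤ) ^ 3 ∣ m) {X Y : ℚ}
    (h : X ^ 3 + Y ^ 3 = m) (hne : X ≠ Y) : {q : ℚ × ℚ | q.1 ^ 3 + q.2 ^ 3 = m}.Infinite := by
  obtain ⟨Z, hZ⟩ : ∃ Z : Set ℤ, Z = {z : ℤ | 0 < z ∧ ∃ x y : ℤ, x ^ 3 + y ^ 3 = m * z ^ 3 ∧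
      IsCoprime x y ∧ x ≠ y} := ⟨_, rfl⟩
  have hZi : Z.Infinite := by
    obtain ⟨x, y, z, h1, h2, h3, h4⟩ := prim hcf h hne
    have hz : z ∈ Z := by rw [hZ]; exact ⟨h2, x, y, h1, h3, h4⟩
    have hs : ∀ z ∈ Z, ∃ z' ∈ Z, z < z' := by
      intro z hz
      rw [hZ] at hz
      obtain ⟨h2, x, y, h1, h3, h4⟩ := hz
      obtain ⟨x', y', z', g1, g2, g3, g4⟩ := step hm hcf h1 h2 h3 h4
      exact ⟨z', by rw [hZ]; exact ⟨h2.trans g2, x', y', g1, g3, g4⟩, g2⟩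
    intro hfin
    obtain ⟨w, hw, hmax⟩ := hfin.exists_maximal ⟨z, hz⟩
    obtain ⟨w', hw', hlt⟩ := hs w hw
    exact absurd (hmax hw' hlt.le) (not_le.2 hlt)
  have hch : ∀ z ∈ Z, ∃ q : ℚ × ℚ, q.1 ^ 3 + q.2 ^ 3 = m ∧ (q.1.den : ℤ) = z := by
    intro z hz
    rw [hZ] at hz
    obtain ⟨h2, x, y, h1, h3, -⟩ := hz
    have hzQ : (z : ℚ) ≠ 0 := by exact_mod_cast h2.ne'
    refine ⟨((x : ℚ) / z, (y : ℚ) / z), ?_, ?_⟩
    · show ((x : ℚ) / z) ^ 3 + ((y : ℚ) / z) ^ 3 = m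
      have e : (x : ℚ) ^ 3 + (y : ℚ) ^ 3 = m * (z : ℚ) ^ 3 := by exact_mod_cast h1
      rw [div_pow, div_pow, ← add_div, e]
      field_simp
    · show ((((x : ℚ) / z).den : ℕ) : ℤ) = z
      have hco : IsCoprime x z := by
        rw [Int.isCoprime_iff_gcd_eq_one]
        by_contra hcon
        obtain ⟨p, hp, hpd⟩ := Nat.exists_prime_and_dvd hcon
        have hpx : (p : ℤ) ∣ x := (Int.natCast_dvd_natCast.2 hpd).trans (Int.gcd_dvd_left ..)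
        have hpz : (p : ℤ) ∣ z := (Int.natCast_dvd_natCast.2 hpd).trans (Int.gcd_dvd_right ..)
        have hpy : (p : ℤ) ∣ y ^ 3 := by
          have e : y ^ 3 = m * z ^ 3 - x ^ 3 := by linarith
          rw [e]
          exact dvd_sub (Dvd.dvd.mul_left (dvd_pow hpz three_ne_zero) _) (dvd_pow hpx three_ne_zero)
        have hpy' : (p : ℤ) ∣ y := (Nat.prime_iff_prime_int.1 hp).dvd_of_dvd_pow hpy
        have := h3.isUnit_of_dvd' hpx hpy'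
        exact (Nat.prime_iff_prime_int.1 hp).not_isUnit this
      have hcn : Nat.Coprime x.natAbs z.natAbs := by
        have := Int.isCoprime_iff_gcd_eq_one.1 hco
        exact this
      have hzn : ((z.natAbs : ℕ) : ℤ) = z := Int.natAbs_of_nonneg h2.le
      have e1 := Rat.den_div_eq_of_coprime (a := x) (b := (z.natAbs : ℤ)) (by rw [hzn]; exact h2)
        (by rw [Int.natAbs_natCast]; exact hcn)
      rw [hzn] at e1
      exact e1
  choose! f hf1 hf2 using hch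
  have hinj : Set.InjOn f Z := by
    intro a ha b hb hab
    rw [← hf2 a ha, ← hf2 b hb, hab]
  exact (hZi.image hinj).mono (by
    rintro _ ⟨z, hz, rfl⟩
    exact hf1 z hz)

/-- finitely many solutions -/
theorem fin {m : ℤ} (hm : m ≠ 0)
    (h : {q : ℚ × ℚ | q.2 ^ 2 = q.1 ^ 3 + ((0 : ℤ) : ℚ) * q.1 + ((-432 * m ^ 2 : ℤ) : ℚ)}.Finite) :
    {q : ℚ × ℚ | q.1 ^ 3 + q.2 ^ 3 = m}.Finite := by
  have hmQ : (m : ℚ) ≠ 0 := by exact_mod_cast hm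
  refine Set.Finite.of_finite_image (f := fun q : ℚ × ℚ =>
    (12 * (m : ℚ) / (q.1 + q.2), 36 * (m : ℚ) * (q.1 - q.2) / (q.1 + q.2))) (h.subset ?_) ?_
  · rintro _ ⟨⟨X, Y⟩, hq, rfl⟩
    have hq : X ^ 3 + Y ^ 3 = m := hq
    have hs : X + Y ≠ 0 := by
      intro h0
      have : X ^ 3 + Y ^ 3 = (X + Y) * (X ^ 2 - X * Y + Y ^ 2) := by ring
      rw [this, h0, zero_mul] at hq
      exact hmQ hq.symm
    show (36 * (m : ℚ) * (X - Y) / (X + Y)) ^ 2 = (12 * (m : ℚ) / (X + Y)) ^ 3 +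
      ((0 : ℤ) : ℚ) * (12 * (m : ℚ) / (X + Y)) + ((-432 * m ^ 2 : ℤ) : ℚ)
    push_cast
    rw [← hq]
    have hs' : X ^ 3 + Y ^ 3 = (X + Y) * (X ^ 2 - X * Y + Y ^ 2) := by ring
    rw [hs']
    field_simp
    ring
  · rintro ⟨X, Y⟩ hq ⟨X', Y'⟩ hq' he
    have hq : X ^ 3 + Y ^ 3 = m := hq
    have hq' : X' ^ 3 + Y' ^ 3 = m := hq'
    have hs : X + Y ≠ 0 := by
      intro h0
      have : X ^ 3 + Y ^ 3 = (X + Y) * (X ^ 2 - X * Y + Y ^ 2) := by ring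
      rw [this, h0, zero_mul] at hq
      exact hmQ hq.symm
    have hs' : X' + Y' ≠ 0 := by
      intro h0
      have : X' ^ 3 + Y' ^ 3 = (X' + Y') * (X' ^ 2 - X' * Y' + Y' ^ 2) := by ring
      rw [this, h0, zero_mul] at hq'
      exact hmQ hq'.symm
    simp only [Prod.mk.injEq] at he
    obtain ⟨e1, e2⟩ := he
    rw [div_eq_div_iff hs hs'] at e1 e2
    have e3 : X + Y = X' + Y' := by
      have : 12 * (m : ℚ) * (X' + Y') = 12 * (m : ℚ) * (X + Y) := e1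
      exact (mul_left_cancel₀ (by positivity) this).symm
    rw [← e3] at e2
    have e4 : 36 * (m : ℚ) * (X - Y) = 36 * (m : ℚ) * (X' - Y') := mul_right_cancel₀ hs e2
    have e5 : X - Y = X' - Y' := mul_left_cancel₀ (by positivity) e4
    rw [Prod.mk.injEq]
    constructor <;> linarith

/-- **No solutions besides the trivial ones.** -/
theorem sol {n : ℕ} (hn : 2 ≤ n) (hcf : ∀ p : ℕ, p.Prime → ¬ p ^ 3 ∣ n)
    (h : Finite (Pool.Agent.Y703.CT.EQ (Pool.Agent.Y703.CT.WD n)).toAffine.Point) {X Y : ℚ}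
    (hq : X ^ 3 + Y ^ 3 = n) : X = Y := by
  by_contra hne
  have h1 := fin (m := (n : ℤ)) (by exact_mod_cast (by omega : n ≠ 0))
    (Pool.Agent.Y703.CX.fin_pts (by exact_mod_cast (by omega : n ≠ 0)) h)
  refine inf (m := (n : ℤ)) (by exact_mod_cast hn) (fun p hp hd => hcf p hp ?_) (X := X) (Y := Y) ?_ hne h1
  · exact_mod_cast hd
  · push_cast
    exact hq

/-- the same for the products by cubes, with signs -/
theorem sol_cube {n : ℕ} (hn : 2 ≤ n) (hcf : ∀ p : ℕ, p.Prime → ¬ p ^ 3 ∣ n)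
    (h : Finite (Pool.Agent.Y703.CT.EQ (Pool.Agent.Y703.CT.WD n)).toAffine.Point) {A : ℤ} {b : ℕ}
    (hA : A ≠ 0) (hb : A.natAbs = n * b ^ 3) {X Y : ℚ} (hq : X ^ 3 + Y ^ 3 = A) : X = Y := by
  have hb0 : b ≠ 0 := by
    rintro rfl
    simp at hb
    exact hA hb
  have hbQ : (b : ℚ) ≠ 0 := by exact_mod_cast hb0
  rcases Int.natAbs_eq A with h1 | h1
  · have e : (A : ℚ) = n * (b : ℚ) ^ 3 := by
      rw [h1, hb]
      push_cast
      ring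
    have h2 : (X / b) ^ 3 + (Y / b) ^ 3 = n := by
      rw [div_pow, div_pow, ← add_div, hq, e]
      field_simp
    have h3 := sol hn hcf h h2
    exact (div_left_inj' hbQ).1 h3
  · have e : (A : ℚ) = -(n * (b : ℚ) ^ 3) := by
      rw [h1, hb]
      push_cast
      ring
    have h2 : (-X / b) ^ 3 + (-Y / b) ^ 3 = n := by
      have : (-X / b) ^ 3 + (-Y / b) ^ 3 = -(X ^ 3 + Y ^ 3) / (b : ℚ) ^ 3 := by
        field_simp
        ring
      rw [this, hq, e]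
      field_simp
    have h3 := sol hn hcf h h2
    exact neg_injective ((div_left_inj' hbQ).1 h3)

end Pool.Agent.Q1.CD
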